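import Pool.Agent.Work.MP_f3c9f4_co.Final

/-!
# Cartesian products of two graphs of maximum degree at most three

The Cartesian product `F □ G` of two simple graphs (finite or infinite) in which all degrees are at
most `3` decomposes into six matchings; if `F` and `G` are cubic, the six matchings are perfect, so
they are a 1-factorization. The finite cubic case is `boxProd_colorable`; graphs of maximum degree
at most three embed into cubic graphs, and infinite graphs are treated by compactness.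
-/

set_option autoImplicit false

namespace Pool.Agent.Results.MP_f3c9f4_co.ProductsOfSubcubicGraphs

open Pool.Agent.Work.MP_f3c9f4_co

universe u v

section embed

/-- Two copies of `F`; the two copies of a vertex of degree less than three are joined. -/
def double {V : Type u} (F : SimpleGraph V) : SimpleGraph (V × Bool) where
  Adj p q := (p.2 = q.2 ∧ F.Adj p.1 q.1) ∨
    (p.1 = q.1 ∧ p.2 ≠ q.2 ∧ (F.neighborSet p.1).ncard < 3)
  symm := ⟨by
    rintro ⟨a, i⟩ ⟨b, j⟩ (⟨h1, h2⟩ | ⟨h1, h2, h3⟩)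
    · exact Or.inl ⟨h1.symm, h2.symm⟩
    · refine Or.inr ⟨h1.symm, h2.symm, ?_⟩
      simp only at h1
      subst h1
      exact h3⟩
  loopless := ⟨by
    rintro ⟨a, i⟩ (⟨_, h2⟩ | ⟨_, h2, _⟩)
    · exact F.loopless.irrefl _ h2
    · exact h2 rfl⟩

theorem double_neighborSet {V : Type u} (F : SimpleGraph V) (a : V) (i : Bool) :
    (double F).neighborSet (a, i) = (fun w => (w, i)) '' F.neighborSet a ∪
      {p | p = (a, !i) ∧ (F.neighborSet a).ncard < 3} := by
  ext ⟨b, j⟩
  simp only [SimpleGraph.mem_neighborSet, double, Set.mem_union, Set.mem_image, Set.mem_ofPred_eq,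
    Prod.mk.injEq]
  constructor
  · rintro (⟨h1, h2⟩ | ⟨h1, h2, h3⟩)
    · exact Or.inl ⟨b, h2, rfl, h1⟩
    · refine Or.inr ⟨⟨h1.symm, ?_⟩, h3⟩
      cases i <;> cases j <;> simp_all
  · rintro (⟨w, h1, h2, h3⟩ | ⟨⟨h1, h2⟩, h3⟩)
    · subst h2
      exact Or.inl ⟨h3, h1⟩
    · refine Or.inr ⟨h1.symm, ?_, h3⟩
      rw [h2]
      cases i <;> simp

theorem double_ncard {V : Type u} [Finite V] (F : SimpleGraph V) (a : V) (i : Bool) :
    ((double F).neighborSet (a, i)).ncard =
      (F.neighborSet a).ncard + if (F.neighborSet a).ncard < 3 then 1 else 0 := by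
  rw [double_neighborSet, Set.ncard_union_eq ?_ (Set.toFinite _) (Set.toFinite _)]
  · congr 1
    · exact Set.ncard_image_of_injective _ (fun x y h => (Prod.mk.injEq _ _ _ _ ▸ h).1)
    · split_ifs with h
      · simp [h]
      · simp [h]
  · rw [Set.disjoint_left]
    rintro ⟨b, j⟩ ⟨w, _, hw⟩ ⟨hp, _⟩
    simp only [Prod.mk.injEq] at hw hp
    obtain ⟨_, rfl⟩ := hw
    have := hp.2
    cases i <;> simp at this

/-- A finite graph of maximum degree at most three is a subgraph of a finite cubic graph. -/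
theorem exists_cubic (k : ℕ) : ∀ {V : Type u} [Finite V] (F : SimpleGraph V),
    (∀ x, (F.neighborSet x).ncard ≤ 3) → (∀ x, 3 ≤ (F.neighborSet x).ncard + k) →
    ∃ (V' : Type u) (_ : Finite V') (F' : SimpleGraph V') (f : V → V'), Function.Injective f ∧
      (∀ x y, F.Adj x y → F'.Adj (f x) (f y)) ∧ ∀ x, (F'.neighborSet x).ncard = 3 := by
  induction k with
  | zero =>
    intro V _ F h1 h2
    exact ⟨V, inferInstance, F, id, Function.injective_id, fun _ _ h => h,
      fun x => le_antisymm (h1 x) (by simpa using h2 x)⟩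
  | succ k ih =>
    intro V _ F h1 h2
    obtain ⟨V', hV', F', f, f1, f2, f3⟩ := ih (double F)
      (by
        rintro ⟨a, i⟩
        rw [double_ncard]
        have := h1 a
        split_ifs <;> omega)
      (by
        rintro ⟨a, i⟩
        rw [double_ncard]
        have := h2 a
        split_ifs <;> omega)
    refine ⟨V', hV', F', fun x => f (x, true), ?_, ?_, f3⟩
    · intro x y h
      have := f1 h
      simpa using this
    · intro x y h
      exact f2 _ _ (Or.inl ⟨rfl, h⟩)

end embed

section finite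

/-- The finite case, as a symmetric function on ordered pairs of vertices. -/
theorem finite_case {V : Type u} {W : Type v} [Finite V] [Finite W] (F : SimpleGraph V)
    (G : SimpleGraph W) (hF : ∀ x, (F.neighborSet x).ncard ≤ 3)
    (hG : ∀ y, (G.neighborSet y).ncard ≤ 3) :
    ∃ c : Sym2 (V × W) → Fin 6, ∀ p q r, (SimpleGraph.boxProd F G).Adj p q →
      (SimpleGraph.boxProd F G).Adj p r → q ≠ r → c s(p, q) ≠ c s(p, r) := by
  classical
  obtain ⟨V', hV', F', f, f1, f2, f3⟩ := exists_cubic 3 F hF (fun x => by omega)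
  obtain ⟨W', hW', G', g, g1, g2, g3⟩ := exists_cubic 3 G hG (fun x => by omega)
  have := Fintype.ofFinite V'
  have := Fintype.ofFinite W'
  obtain ⟨C⟩ := boxProd_colorable (F := F') (G := G') f3 g3
  have hadj : ∀ p q : V × W, (SimpleGraph.boxProd F G).Adj p q →
      (SimpleGraph.boxProd F' G').Adj (f p.1, g p.2) (f q.1, g q.2) := by
    intro p q h
    rw [SimpleGraph.boxProd_adj] at h ⊢
    rcases h with ⟨h1, h2⟩ | ⟨h1, h2⟩
    · exact Or.inl ⟨f2 _ _ h1, by rw [h2]⟩
    · exact Or.inr ⟨g2 _ _ h1, by rw [h2]⟩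
  refine ⟨fun e => if h : Sym2.map (fun p : V × W => (f p.1, g p.2)) e ∈
    (SimpleGraph.boxProd F' G').edgeSet then C ⟨_, h⟩ else 0, ?_⟩
  intro p q r hpq hpr hqr
  have e1 : Sym2.map (fun p : V × W => (f p.1, g p.2)) s(p, q) ∈
      (SimpleGraph.boxProd F' G').edgeSet := hadj p q hpq
  have e2 : Sym2.map (fun p : V × W => (f p.1, g p.2)) s(p, r) ∈
      (SimpleGraph.boxProd F' G').edgeSet := hadj p r hpr
  simp only [dif_pos e1, dif_pos e2]
  apply C.valid
  rw [SimpleGraph.lineGraph_adj_iff_exists]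
  refine ⟨?_, (f p.1, g p.2), ?_, ?_⟩
  · intro h
    have h' := congrArg Subtype.val h
    simp only [Sym2.map_mk] at h'
    rw [Sym2.congr_right] at h'
    simp only [Prod.mk.injEq] at h'
    exact hqr (Prod.ext (f1 h'.1) (g1 h'.2))
  · simp
  · simp

end finite

section compact

theorem induce_ncard {X : Type u} (F : SimpleGraph X) (A : Set X)
    (hF : ∀ x, (F.neighborSet x).encard ≤ 3) (x : A) :
    ((F.induce A).neighborSet x).ncard ≤ 3 := by
  have h1 : ((F.induce A).neighborSet x).encard ≤ (F.neighborSet x.1).encard := by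
    rw [← Function.Injective.encard_image (f := (Subtype.val : A → X)) Subtype.val_injective]
    apply Set.encard_le_encard
    rintro _ ⟨y, hy, rfl⟩
    simpa using hy
  have h2 := h1.trans (hF x.1)
  exact (Set.encard_le_coe_iff_finite_ncard_le.1 h2).2

/-- All graphs of maximum degree at most three: compactness. -/
theorem colorable {V : Type u} {W : Type v} (F : SimpleGraph V) (G : SimpleGraph W)
    (hF : ∀ x, (F.neighborSet x).encard ≤ 3) (hG : ∀ y, (G.neighborSet y).encard ≤ 3) :
    (SimpleGraph.boxProd F G).lineGraph.Colorable 6 := by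
  classical
  apply SimpleGraph.nonempty_hom_of_forall_finite_subgraph_hom
  intro L hL
  apply Classical.choice
  -- the finite vertex sets
  set E : Set (V × W) := {p | ∃ e ∈ L.verts, p ∈ e.1} with hE
  have hEf : E.Finite := by
    have : E = ⋃ e ∈ L.verts, {p | p ∈ e.1} := by
      ext p; simp [hE]
    rw [this]
    refine hL.biUnion ?_
    intro e _
    have : {p | p ∈ e.1} = (e.1.toFinset : Set (V × W)) := by ext; simp
    rw [this]
    exact Finset.finite_toSet _
  set A : Set V := Prod.fst '' E with hA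
  set B : Set W := Prod.snd '' E with hB
  have : Finite A := (hEf.image _).to_subtype
  have : Finite B := (hEf.image _).to_subtype
  obtain ⟨c, hc⟩ := finite_case (F.induce A) (G.induce B) (induce_ncard F A hF)
    (induce_ncard G B hG)
  let m : A × B → V × W := fun p => (p.1.1, p.2.1)
  have hm : Function.Injective m := by
    rintro ⟨⟨a, _⟩, ⟨b, _⟩⟩ ⟨⟨a', _⟩, ⟨b', _⟩⟩ h
    simp only [m, Prod.mk.injEq] at h
    obtain ⟨rfl, rfl⟩ := h
    rfl
  have hEm : ∀ p ∈ E, ∃ p', m p' = p := fun p hp =>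
    ⟨(⟨p.1, p, hp, rfl⟩, ⟨p.2, p, hp, rfl⟩), rfl⟩
  have hlift : ∀ e : L.verts, ∃ e' : Sym2 (A × B), Sym2.map m e' = e.1.1 := by
    rintro ⟨⟨e, he⟩, hL⟩
    induction e using Sym2.ind with
    | _ p q =>
      obtain ⟨p', hp⟩ := hEm p ⟨_, hL, by simp⟩
      obtain ⟨q', hq⟩ := hEm q ⟨_, hL, by simp⟩
      exact ⟨s(p', q'), by simp [hp, hq]⟩
  choose l hl using hlift
  have hadj : ∀ p q, (SimpleGraph.boxProd F G).Adj (m p) (m q) →
      (SimpleGraph.boxProd (F.induce A) (G.induce B)).Adj p q := by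
    rintro ⟨a, b⟩ ⟨a', b'⟩ h
    rw [SimpleGraph.boxProd_adj] at h ⊢
    rcases h with ⟨h1, h2⟩ | ⟨h1, h2⟩
    · exact Or.inl ⟨h1, Subtype.ext h2⟩
    · exact Or.inr ⟨h1, Subtype.ext h2⟩
  refine ⟨⟨fun e => c (l e), ?_⟩⟩
  rintro ⟨e1, h1⟩ ⟨e2, h2⟩ hadj12
  have hLa : (SimpleGraph.boxProd F G).lineGraph.Adj e1 e2 := L.adj_sub hadj12
  rw [SimpleGraph.lineGraph_adj_iff_exists] at hLa
  obtain ⟨hne, p, hp1, hp2⟩ := hLa
  obtain ⟨p', hp⟩ := hEm p ⟨_, h1, hp1⟩
  subst hp
  obtain ⟨q, hq⟩ := hp1
  obtain ⟨r, hr⟩ := hp2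
  obtain ⟨q', rfl⟩ := hEm q ⟨_, h1, by rw [hq]; simp⟩
  obtain ⟨r', rfl⟩ := hEm r ⟨_, h2, by rw [hr]; simp⟩
  have l1 : l ⟨e1, h1⟩ = s(p', q') := by
    apply Sym2.map.injective hm
    rw [hl]
    simpa using hq
  have l2 : l ⟨e2, h2⟩ = s(p', r') := by
    apply Sym2.map.injective hm
    rw [hl]
    simpa using hr
  have a1 : (SimpleGraph.boxProd F G).Adj (m p') (m q') := by
    have := e1.2
    rw [hq] at this
    exact this
  have a2 : (SimpleGraph.boxProd F G).Adj (m p') (m r') := by
    have := e2.2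
    rw [hr] at this
    exact this
  show c (l ⟨e1, h1⟩) ≠ c (l ⟨e2, h2⟩)
  rw [l1, l2]
  apply hc p' q' r' (hadj _ _ a1) (hadj _ _ a2)
  rintro rfl
  exact hne (Subtype.ext (hq.trans hr.symm))

end compact

/-- The Cartesian product of two simple graphs `F`, `G` (finite or infinite) of maximum degree at
most three decomposes into six matchings, and if `F` and `G` are cubic, then these six matchings are
perfect: they form a 1-factorization of the 6-regular graph `F □ G`. -/
theorem result (V : Type u) (W : Type v) (F : SimpleGraph V) (G : SimpleGraph W)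
    (hF : ∀ x, (F.neighborSet x).encard ≤ 3) (hG : ∀ y, (G.neighborSet y).encard ≤ 3) :
    ∃ M : Fin 6 → (SimpleGraph.boxProd F G).Subgraph,
      (∀ i, (M i).IsMatching) ∧
      (∀ e ∈ (SimpleGraph.boxProd F G).edgeSet, ∃! i, e ∈ (M i).edgeSet) ∧
      ((∀ x, (F.neighborSet x).encard = 3) → (∀ y, (G.neighborSet y).encard = 3) →
        ∀ i, (M i).IsPerfectMatching) := by
  classical
  obtain ⟨C⟩ := colorable F G hF hG
  -- the colour classes
  let M : Fin 6 → (SimpleGraph.boxProd F G).Subgraph := fun i =>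
    { verts := {p | ∃ q, ∃ h : (SimpleGraph.boxProd F G).Adj p q, C ⟨s(p, q), h⟩ = i}
      Adj := fun p q => ∃ h : (SimpleGraph.boxProd F G).Adj p q, C ⟨s(p, q), h⟩ = i
      adj_sub := fun h => h.1
      edge_vert := fun {p q} h => ⟨q, h⟩
      symm := ⟨by
        rintro p q ⟨h, hi⟩
        refine ⟨h.symm, ?_⟩
        rw [← hi]
        congr 2
        exact Sym2.eq_swap⟩ }
  have hM : ∀ i p q, (M i).Adj p q ↔ ∃ h : (SimpleGraph.boxProd F G).Adj p q,
      C ⟨s(p, q), h⟩ = i := fun _ _ _ => Iff.rfl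
  have hMv : ∀ i p, p ∈ (M i).verts ↔ ∃ q, (M i).Adj p q := fun _ _ => Iff.rfl
  have huniq : ∀ p q r (h : (SimpleGraph.boxProd F G).Adj p q)
      (h' : (SimpleGraph.boxProd F G).Adj p r), C ⟨s(p, q), h⟩ = C ⟨s(p, r), h'⟩ → q = r := by
    intro p q r h h' hC
    by_contra hne
    refine C.valid ?_ hC
    rw [SimpleGraph.lineGraph_adj_iff_exists]
    refine ⟨?_, p, by simp, by simp⟩
    intro h''
    have := congrArg Subtype.val h''
    simp only [Sym2.congr_right] at this
    exact hne this
  have hmat : ∀ i, (M i).IsMatching := by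
    intro i p hp
    obtain ⟨q, hq⟩ := (hMv i p).1 hp
    refine ⟨q, hq, ?_⟩
    intro r hr
    obtain ⟨h1, h2⟩ := (hM i p q).1 hq
    obtain ⟨h3, h4⟩ := (hM i p r).1 hr
    exact huniq p r q h3 h1 (by rw [h4, h2])
  refine ⟨M, hmat, ?_, ?_⟩
  · intro e he
    induction e using Sym2.ind with
    | _ p q =>
      refine ⟨C ⟨s(p, q), he⟩, ?_, ?_⟩
      · show s(p, q) ∈ (M (C ⟨s(p, q), he⟩)).edgeSet
        rw [SimpleGraph.Subgraph.mem_edgeSet]
        exact ⟨he, rfl⟩
      · intro j hj
        have hj' : s(p, q) ∈ (M j).edgeSet := hj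
        rw [SimpleGraph.Subgraph.mem_edgeSet] at hj'
        exact hj'.2.symm
  · intro h3 g3 i
    refine ⟨hmat i, ?_⟩
    rintro ⟨x, y⟩
    -- the six neighbours
    have hN : ((SimpleGraph.boxProd F G).neighborSet (x, y)).encard = 6 := by
      have e : (SimpleGraph.boxProd F G).neighborSet (x, y) =
          (fun a => (a, y)) '' F.neighborSet x ∪ (fun b => (x, b)) '' G.neighborSet y := by
        ext ⟨a, b⟩
        simp only [SimpleGraph.mem_neighborSet, SimpleGraph.boxProd_adj, Set.mem_union,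
          Set.mem_image, Prod.mk.injEq]
        constructor
        · rintro (⟨h1, h2⟩ | ⟨h1, h2⟩)
          · exact Or.inl ⟨a, h1, rfl, h2⟩
          · exact Or.inr ⟨b, h1, h2, rfl⟩
        · rintro (⟨a', h1, rfl, h2⟩ | ⟨b', h1, h2, rfl⟩)
          · exact Or.inl ⟨h1, h2⟩
          · exact Or.inr ⟨h1, h2⟩
      rw [e, Set.encard_union_eq]
      · rw [Function.Injective.encard_image, Function.Injective.encard_image, h3, g3]
        · norm_num
        · intro a b h
          simpa using h
        · intro a b h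
          simpa using h
      · rw [Set.disjoint_left]
        rintro _ ⟨a, ha, rfl⟩ ⟨b, hb, hab⟩
        simp only [Prod.mk.injEq] at hab
        obtain ⟨rfl, rfl⟩ := hab
        exact F.loopless.irrefl _ ha
    let g : (SimpleGraph.boxProd F G).neighborSet (x, y) → Fin 6 := fun q => C ⟨s((x, y), q.1), q.2⟩
    have hg : Function.Injective g := by
      intro q r hqr
      exact Subtype.ext (huniq _ _ _ q.2 r.2 hqr)
    have hcard : Nat.card ((SimpleGraph.boxProd F G).neighborSet (x, y)) = 6 := by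
      rw [Nat.card_coe_set_eq, Set.ncard, hN]
      rfl
    have hfin : Finite ((SimpleGraph.boxProd F G).neighborSet (x, y)) :=
      Nat.finite_of_card_ne_zero (by rw [hcard]; norm_num)
    have hbij : Function.Bijective g := by
      rw [Nat.bijective_iff_injective_and_card]
      exact ⟨hg, by rw [hcard]; simp⟩
    obtain ⟨q, hq⟩ := hbij.2 i
    exact ⟨q.1, q.2, hq⟩

end Pool.Agent.Results.MP_f3c9f4_co.ProductsOfSubcubicGraphs
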